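import Pool.Agent.Helper98K9.HP.All

/-!
# Walks on percolation clusters of the hierarchical group: the critical exponent is `1`

Definitions (all in `Pool.Agent.Helper98K9.HP.Defs`): `V N` the hierarchical group, `dist` the
hierarchical distance, `cseq` the sequence `c_k`, `PP N c` the law of the configuration of
independent edges, `G ω` the random graph, `InfC` the component is infinite, `stepP` the `n`-step
probabilities of simple random walk, `Recurrent` and `Transient`.
-/

set_option autoImplicit false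

namespace Pool.Agent.Results.MP_133e92_pr.CriticalExponentOne

open Pool.Agent.Helper98K9.HP MeasureTheory

theorem result (N : ℕ) (hN : 2 ≤ N) (C0 C1 C2 α : ℝ) (h0 : 0 ≤ C0) (h1 : 0 ≤ C1) (h2 : 0 < C2)
    (hα : 0 < α) :
    (∀ᵐ ω ∂(PP N (cseq C0 C1 C2 α)), ∀ x, ((G ω).neighborSet x).Finite) ∧
    (α ≤ 1 → ∀ᵐ ω ∂(PP N (cseq C0 C1 C2 α)), ∀ x, InfC (G ω) x → Recurrent (G ω) x) ∧
    (1 < α → ∀ᵐ ω ∂(PP N (cseq C0 C1 C2 α)), ∀ x, InfC (G ω) x → Transient (G ω) x) :=
  all_final N hN C0 C1 C2 α h0 h1 h2 hα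

end Pool.Agent.Results.MP_133e92_pr.CriticalExponentOne
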